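import Pool.Agent.Work.MP_db9399_sx.Prep

/-!
# MIDX: from the run of the machine to the situation after SSE3 (helper79)
-/

set_option autoImplicit false

namespace Pool.Agent.Work.MP_db9399_sx.helper79

open Finset Classical
open Pool.Agent.Work.MP_db9399_all (nb)
open Pool.Agent.Work.MP_db9399_bg (HPre)
open Pool.Agent.Work.MP_db9399_sl (InS Same Gss Gin Gex Out)
open Pool.Agent.Work.MP_db9399_sv (GsL GxL)
open Pool.Agent.Work.MP_db9399_sw (shs sms od Gxh Grh Lgt)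
open Pool.Agent.Work.MP_db9399_sx

universe u

section aux
variable {V : Type u} [Fintype V]

theorem mem_nb' (G : SimpleGraph V) (v w : V) : w ∈ nb G v ↔ G.Adj v w := by
  simp [nb]

theorem mem_Lts (Ys : Finset (Finset V)) (Hs : Finset V) (v : V) :
    v ∈ Lts Ys Hs ↔ InS Ys v ∧ v ∉ Hs := by
  simp [Lts]

theorem gsL_iff (G EH : SimpleGraph V) (Ys : Finset (Finset V)) (Hs : Finset V) (v w : V) :
    (GsL G EH Ys (Lts Ys Hs)).Adj v w ↔ (Grh G EH Ys Hs).Adj v w := by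
  constructor
  · rintro ⟨⟨h1, h2, h3, h4, h5⟩, h6, h7⟩
    rw [mem_Lts] at h6 h7
    exact ⟨h1, h4, h6, h7, h5⟩
  · rintro ⟨h1, h2, h3, h4, h5⟩
    refine ⟨⟨h1, h3.1, h4.1, h2, h5⟩, ?_, ?_⟩
    · rw [mem_Lts]
      exact h3
    · rw [mem_Lts]
      exact h4

/-- the edges of `GxL` are edges of `Gxh` or of `EH` -/
theorem gxL_cases (G EH : SimpleGraph V) (Ys : Finset (Finset V)) (Hs : Finset V) (v w : V)
    (h : (GxL G EH Ys (Lts Ys Hs)).Adj v w) : (Gxh G Ys Hs).Adj v w ∨ EH.Adj v w := by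
  obtain ⟨⟨h1, h2⟩, h3⟩ := h
  by_cases hE : EH.Adj v w
  · exact Or.inr hE
  · left
    refine ⟨h1, h2, ?_⟩
    rintro ⟨h4, h5⟩
    exact h3 ((gsL_iff G EH Ys Hs v w).mpr ⟨h1, h2, h4, h5, hE⟩)

theorem gxh_gxL (G EH : SimpleGraph V) (Ys : Finset (Finset V)) (Hs : Finset V) (v w : V)
    (h : (Gxh G Ys Hs).Adj v w) : (GxL G EH Ys (Lts Ys Hs)).Adj v w := by
  obtain ⟨h1, h2, h3⟩ := h
  refine ⟨⟨h1, h2⟩, ?_⟩
  intro h4
  have h5 := (gsL_iff G EH Ys Hs v w).mp h4
  exact h3 ⟨h5.2.2.1, h5.2.2.2.1⟩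

/-- the filling colours of one vertex -/
theorem fill {K : Type} [DecidableEq K] (K0 A : Finset K) (b0 : K) (n d : ℕ) (hK : K0.card = d + 2)
    (hA : A.card ≤ d) (hb : b0 ∉ A) (hn : 1 ≤ n) (hn2 : n ≤ 2) :
    ∃ F : Finset K, F ⊆ K0 ∧ Disjoint F A ∧ F.card = n ∧ (b0 ∈ K0 → b0 ∈ F) := by
  have h1 : 2 ≤ (K0 \ A).card := by
    have h2 := le_card_sdiff A K0
    omega
  by_cases hbK : b0 ∈ K0
  · obtain ⟨F, hF1, hF2, hF3⟩ := exists_subsuperset_card_eq (s := {b0}) (t := K0 \ A) (n := n)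
      (by
        intro x hx
        rw [mem_singleton] at hx
        rw [hx, mem_sdiff]
        exact ⟨hbK, hb⟩) (by rw [card_singleton]; exact hn) (le_trans hn2 h1)
    refine ⟨F, ?_, ?_, hF3, fun _ => hF1 (mem_singleton_self _)⟩
    · exact hF2.trans sdiff_subset
    · rw [disjoint_left]
      intro x hx
      exact (mem_sdiff.mp (hF2 hx)).2
  · obtain ⟨F, hF1, hF2⟩ := exists_subset_card_eq (s := K0 \ A) (n := n) (le_trans hn2 h1)
    refine ⟨F, hF1.trans sdiff_subset, ?_, hF2, fun h => absurd h hbK⟩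
    rw [disjoint_left]
    intro x hx
    exact (mem_sdiff.mp (hF1 hx)).2

end aux

/-- `2 log ^ 13 d` is small -/
theorem log_small (θ : ℝ) (hθ : 0 < θ) : ∃ d0 : ℕ, ∀ d : ℕ, d0 ≤ d →
    2 * Real.log d ^ 13 ≤ θ * d := by
  have h1 : (fun x : ℝ => Real.log x ^ 13) =o[Filter.atTop] (id : ℝ → ℝ) :=
    Real.isLittleO_pow_log_id_atTop
  have h2 := h1.bound (half_pos hθ)
  rw [Filter.eventually_atTop] at h2
  obtain ⟨X, hX⟩ := h2
  obtain ⟨n, hn⟩ := exists_nat_gt X
  refine ⟨n, ?_⟩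
  intro d hd
  have h3 := hX d (le_trans hn.le (by exact_mod_cast hd))
  rw [Real.norm_eq_abs, id, Real.norm_eq_abs, abs_of_nonneg (Nat.cast_nonneg d : (0 : ℝ) ≤ d)] at h3
  have h4 := le_trans (le_abs_self _) h3
  linarith

theorem stmt_MIDX (hS : Pool.Agent.Work.MP_db9399_sv.Stmt_SSE3.{u}) : Stmt_MIDX.{u} := by
  intro δ π ρ s hδ hπ hπ3 hδ1 hρ hs
  obtain ⟨θ', d1, hθ', hmain⟩ := hS δ π ρ s hδ hπ hπ3 hδ1 hρ hs
  refine ⟨θ', hθ', ?_⟩
  intro a0
  obtain ⟨d2, hd2⟩ := log_small θ' hθ'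
  refine ⟨max d1 (max d2 3), ?_⟩
  intro V _ k ι κ θ δ1 ε2 c ε x η G EH d Ys UH Gd Hs c0 tu cc t E K0 C p a Z μ E1 vb sy u j0 sp hM
    Fy Mt pn hd hθ P
  have hdd1 : d1 ≤ d := le_trans (le_max_left _ _) hd
  have hdd2 : d2 ≤ d := le_trans (le_trans (le_max_left _ _) (le_max_right _ _)) hd
  have hdd3 : 3 ≤ d := le_trans (le_trans (le_max_right _ _) (le_max_right _ _)) hd
  have hO := P.out
  have hG := P.grp
  have hH := hG.pre
  have huniq : ∀ Y ∈ Ys, ∀ Y' ∈ Ys, ∀ v, v ∈ Y → v ∈ Y' → Y = Y' := by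
    intro Y hY Y' hY' v hv hv'
    by_contra hne
    exact (disjoint_left.mp (hG.dis Y hY Y' hY' hne)) hv hv'
  -- the filling colours
  have hEd : ∀ v, InS Ys v → (E v).card ≤ d := by
    intro v hv
    have h1 := hO.Ed v hv
    omega
  have hF : ∀ v, ∃ F : Finset (Fin k), (¬ (v ∈ UH ∧ InS Ys v) → F = ∅) ∧
      (v ∈ UH ∧ InS Ys v → F ⊆ K0 ∧ Disjoint F (E v) ∧
        F.card = (if tu v ∈ K0 then 1 else 2) ∧ (c0 v ∈ K0 → c0 v ∈ F)) := by
    intro v
    by_cases hv : v ∈ UH ∧ InS Ys v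
    · obtain ⟨F, h1, h2, h3, h4⟩ := fill K0 (E v) (c0 v) (if tu v ∈ K0 then 1 else 2) d hO.K0c
        (hEd v hv.2) (hO.EU v hv.1 hv.2).2 (by split_ifs <;> omega) (by split_ifs <;> omega)
      exact ⟨F, fun h => absurd hv h, fun _ => ⟨h1, h2, h3, h4⟩⟩
    · exact ⟨∅, fun _ => rfl, fun h => absurd h hv⟩
  choose F0 hF1 hF2 using hF
  have hF2c : ∀ v, (F0 v).card ≤ 2 := by
    intro v
    by_cases hv : v ∈ UH ∧ InS Ys v
    · rw [(hF2 v hv).2.2.1]
      split_ifs <;> omega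
    · rw [hF1 v hv, card_empty]
      omega
  have hEF : ∀ v, InS Ys v → Disjoint (E v) (F0 v) := by
    intro v hv
    by_cases hvU : v ∈ UH
    · exact (hF2 v ⟨hvU, hv⟩).2.1.symm
    · rw [hF1 v (fun h => hvU h.1)]
      exact disjoint_empty_right _
  have hO' : Out δ π G (GxL G EH Ys (Lts Ys Hs)) (GsL G EH Ys (Lts Ys Hs)) EH d Ys UH c0 tu cc t
      E K0 C p a Z := by
    have hset : ∀ v w, (GxL G EH Ys (Lts Ys Hs)).Adj v w ∨ EH.Adj v w →
        (Gxh G Ys Hs).Adj v w ∨ EH.Adj v w := by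
      intro v w h
      rcases h with h | h
      · exact gxL_cases G EH Ys Hs v w h
      · exact Or.inr h
    refine
      { K0c := hO.K0c
        cU := hO.cU
        cK := hO.cK
        cc := hO.cc
        ts := hO.ts
        te := hO.te
        tK := ?_
        tc := ?_
        ti := ?_
        Et := ?_
        EK := hO.EK
        EU := hO.EU
        Ed := ?_
        CK := hO.CK
        Cc := hO.Cc
        Cd := hO.Cd
        UZ := hO.UZ
        ZY := hO.ZY
        av := hO.av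
        cell := hO.cell
        ld := hO.ld }
    · intro v w h hE
      exact hO.tK v w ((gxL_cases G EH Ys Hs v w h).resolve_right hE) hE
    · intro v w h hv
      rcases gxL_cases G EH Ys Hs v w h with h1 | h1
      · exact hO.tc v w h1 hv
      · have hvU : v ∈ UH := hH.EU v w h1
        rw [hO.te v w h1, hO.cU v hvU]
        exact hH.ct v hvU
    · intro v w hw w' hw' h
      exact hO.ti v (hset v w hw) (hset v w' hw') h
    · intro v w hv h
      exact hO.Et v w hv (hset v w h)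
    · intro v hv
      have h1 : nb (GsL G EH Ys (Lts Ys Hs)) v = nb (Grh G EH Ys Hs) v := by
        ext w
        rw [mem_nb', mem_nb', gsL_iff]
      rw [h1]
      exact hO.Ed v hv
  -- the guards
  have hlog1 : 0 ≤ Real.log d := Real.log_natCast_nonneg d
  have hgd : ∀ Y ∈ Ys, (((∑ v ∈ Y ∩ Gd, (nb (GsL G EH Ys (Lts Ys Hs)) v).card : ℕ)) : ℝ) ≤
      θ' * d := by
    intro Y hY
    by_cases hYs : Y ∈ sms G d Hs Ys
    · have h1 : ∀ v ∈ Y ∩ Gd, ((nb (GsL G EH Ys (Lts Ys Hs)) v).card : ℝ) ≤ Real.log d ^ 5 := by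
        intro v hv
        refine le_trans ?_ (P.gmem v (mem_inter.mp hv).2).2.2.2
        rw [od]
        exact_mod_cast card_le_card (fun w hw => by
          rw [mem_nb'] at hw
          rw [mem_filter, mem_nb']
          exact ⟨hw.1.1, hw.1.2.2.2.1⟩)
      push_cast
      calc ∑ v ∈ Y ∩ Gd, ((nb (GsL G EH Ys (Lts Ys Hs)) v).card : ℝ)
          ≤ ∑ v ∈ Y ∩ Gd, Real.log d ^ 5 := sum_le_sum h1
        _ = (Y ∩ Gd).card * Real.log d ^ 5 := by rw [sum_const, nsmul_eq_mul]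
        _ ≤ 2 * Real.log d ^ 8 * Real.log d ^ 5 :=
            mul_le_mul_of_nonneg_right (P.gupp Y hYs) (pow_nonneg hlog1 5)
        _ = 2 * Real.log d ^ 13 := by ring
        _ ≤ θ' * d := hd2 d hdd2
    · have h1 : Y ∩ Gd = ∅ := by
        rw [eq_empty_iff_forall_notMem]
        intro v hv
        rw [mem_inter] at hv
        obtain ⟨Y', hY', hvY'⟩ := (P.gmem v hv.2).2.2.1
        apply hYs
        have h2 : Y' ∈ Ys := by
          have h3 : Y' ∈ shs d Ys := by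
            rw [sms, mem_filter] at hY'
            exact hY'.1
          rw [shs, mem_filter] at h3
          exact h3.1
        rw [huniq Y hY Y' h2 v hv.1 hvY']
        exact hY'
      rw [h1, sum_empty]
      push_cast
      positivity
  obtain ⟨t', E', h1, h2, h3, h4, h5, h6, h7, h8, h9⟩ := hmain G d k Ys UH (Lts Ys Hs) c0 EH tu cc
    t E K0 C p a Z F0 (Ks K0 E1 vb j0) Gd hdd1 hG.deg (by
      intro Y hY
      have h1 := hG.upp Y hY
      have h2 : (Y.card : ℝ) ≤ ((2 * d : ℕ) : ℝ) := by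
        push_cast
        have h3 : (0 : ℝ) ≤ d := Nat.cast_nonneg d
        nlinarith
      exact_mod_cast h2) hG.dis (by
      intro Y hY v hv hvL
      rw [mem_Lts] at hvL
      exact hG.lig Y hY v hv hvL.2) hH hF2c hEF (by
      intro b hb
      rw [Ks, mem_filter] at hb
      exact hb.1) P.kss hgd hO'
  refine ⟨F0, t', E', ?_⟩
  exact
    { out := h9
      tx := by
        intro v w hvw hw
        apply h1 v w
        refine ⟨⟨hvw, ?_⟩, ?_⟩
        · rintro ⟨Y, hY, _, hwY⟩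
          exact hw ⟨Y, hY, hwY⟩
        · intro h'
          exact hw h'.1.2.2.1
      EE := h3
      EK := h5
      EL := h4
      ldn := h7
      gdn := h8
      F0K := fun v hv hvS => (hF2 v ⟨hv, hvS⟩).1
      F0n := fun v hv hvS => (hF2 v ⟨hv, hvS⟩).2.2.1
      F0u := hF2c
      F0d := fun v _ hvS => (h6 v hvS).symm
      F0c := fun v hv hvS => (hF2 v ⟨hv, hvS⟩).2.2.2 }

end Pool.Agent.Work.MP_db9399_sx.helper79
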