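import Pool.Agent.Work.MP_db9399_sx_helper79.MIDX

/-!
# SITX: from `Prep` and `Mid` to `Sit` (helper79)
-/

set_option autoImplicit false

namespace Pool.Agent.Work.MP_db9399_sx.helper79

open Finset Classical
open Pool.Agent.Work.MP_db9399_all (nb)
open Pool.Agent.Work.MP_db9399_dn (IsMat)
open Pool.Agent.Work.MP_db9399_bg (HPre)
open Pool.Agent.Work.MP_db9399_sl (InS Same Gss Gin Gex Out)
open Pool.Agent.Work.MP_db9399_sv (Cor Mis slo GsL GxL bt slL Bas Lab Big Sma Sit)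
open Pool.Agent.Work.MP_db9399_sw (shs sms wt wl od Gxh Grh Lgt)
open Pool.Agent.Work.MP_db9399_sx

universe u

section aux
variable {V : Type u} [Fintype V] {k : ℕ}

theorem slo_card (Y : Finset V) (E : V → Finset (Fin k)) (q : V → Prop) [DecidablePred q] :
    ((slo Y E).filter (fun s => q s.1)).card = ∑ v ∈ Y.filter q, (E v).card := by
  have h1 : (slo Y E).filter (fun s => q s.1) =
      (Y.filter q).biUnion (fun v => (E v).image (fun b => (v, b))) := by
    ext ⟨v, b⟩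
    simp only [slo, mem_filter, mem_product, mem_univ, mem_biUnion, mem_image, Prod.mk.injEq,
      and_true]
    constructor
    · rintro ⟨⟨h1, h2⟩, h3⟩
      exact ⟨v, ⟨h1, h3⟩, b, h2, rfl, rfl⟩
    · rintro ⟨w, ⟨h1, h3⟩, c, h2, rfl, rfl⟩
      exact ⟨⟨h1, h2⟩, h3⟩
  rw [h1, card_biUnion]
  · refine sum_congr rfl fun v _ => card_image_of_injective _ ?_
    intro b b' hb
    exact (Prod.mk.inj hb).2
  · intro v _ w _ hvw
    rw [Function.onFun, disjoint_left]
    intro s hs hs'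
    rw [mem_image] at hs hs'
    obtain ⟨b, _, hb⟩ := hs
    obtain ⟨c, _, hc⟩ := hs'
    rw [← hb] at hc
    exact hvw (Prod.mk.inj hc).1.symm

theorem slo_card' (Y : Finset V) (E : V → Finset (Fin k)) :
    (slo Y E).card = ∑ v ∈ Y, (E v).card := by
  have h1 := slo_card Y E (fun _ => True)
  simpa using h1

theorem inter_Lts {Ys : Finset (Finset V)} (Hs : Finset V) {Y : Finset V} (hY : Y ∈ Ys) :
    Y ∩ Lts Ys Hs = Y \ Hs := by
  ext v
  rw [mem_inter, mem_Lts, mem_sdiff]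
  exact ⟨fun h => ⟨h.1, h.2.2⟩, fun h => ⟨h.1, ⟨Y, hY, h.1⟩, h.2⟩⟩

/-- neighbours in the spot -/
theorem nb_inter_le (G EH : SimpleGraph V) (hmat : IsMat EH) {Ys : Finset (Finset V)}
    {Y : Finset V} (hY : Y ∈ Ys) {v : V} (hv : v ∈ Y) :
    (nb G v ∩ Y).card ≤ (nb (Gin G EH Ys) v).card + 1 := by
  have h1 : nb G v ∩ Y ⊆ nb (Gin G EH Ys) v ∪ nb EH v := by
    intro w hw
    rw [mem_inter, mem_nb'] at hw
    rw [mem_union, mem_nb', mem_nb']
    by_cases hE : EH.Adj v w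
    · exact Or.inr hE
    · exact Or.inl ⟨hw.1, ⟨Y, hY, hv, hw.2⟩, hE⟩
  exact le_trans (card_le_card h1) (le_trans (card_union_le _ _) (Nat.add_le_add_left (hmat v) _))

theorem gin_sub (G EH : SimpleGraph V) {Ys : Finset (Finset V)}
    (hdis : ∀ Y ∈ Ys, ∀ Y' ∈ Ys, Y ≠ Y' → Disjoint Y Y')
    {Y : Finset V} (hY : Y ∈ Ys) {v : V} (hv : v ∈ Y) :
    nb (Gin G EH Ys) v ⊆ nb G v ∩ Y := by
  intro w hw
  rw [mem_nb'] at hw
  obtain ⟨h1, ⟨Y', hY', h2, h3⟩, _⟩ := hw
  rw [mem_inter, mem_nb']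
  refine ⟨h1, ?_⟩
  have h4 : Y = Y' := by
    by_contra hne
    exact (disjoint_left.mp (hdis Y hY Y' hY' hne)) hv h2
  rw [h4]
  exact h3

theorem gin_eq (G EH : SimpleGraph V) {Ys : Finset (Finset V)}
    (hdis : ∀ Y ∈ Ys, ∀ Y' ∈ Ys, Y ≠ Y' → Disjoint Y Y')
    {Y : Finset V} (hY : Y ∈ Ys) {v : V} (hv : v ∈ Y) (hEv : ∀ w, ¬ EH.Adj v w) :
    nb (Gin G EH Ys) v = nb G v ∩ Y := by
  apply Subset.antisymm (gin_sub G EH hdis hY hv)
  intro w hw
  rw [mem_inter, mem_nb'] at hw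
  rw [mem_nb']
  exact ⟨hw.1, ⟨Y, hY, hv, hw.2⟩, hEv w⟩

/-- at most two neighbours in `UH` -/
theorem two_uh {G : SimpleGraph V} {UH : Finset V} {c0 : V → Fin k} {EH : SimpleGraph V}
    {tu : V → Fin k} (h : HPre G UH c0 EH tu) (v : V) :
    ((nb G v).filter (fun y => y ∈ UH)).card ≤ 2 := by
  by_cases he : ((nb G v).filter (fun y => y ∈ UH)) = ∅
  · rw [he, card_empty]
    omega
  · obtain ⟨x, hx⟩ := nonempty_iff_ne_empty.mpr he
    rw [mem_filter, mem_nb'] at hx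
    have h1 : (nb G v).filter (fun y => y ∈ UH) ⊆ {x} ∪ nb EH x := by
      intro y hy
      rw [mem_filter, mem_nb'] at hy
      rw [mem_union, mem_singleton, mem_nb']
      rcases h.far v x hx.2 y hy.2 hx.1 hy.1 with h2 | h2
      · exact Or.inl h2.symm
      · exact Or.inr h2
    have h2 := card_le_card h1
    have h3 := card_union_le {x} (nb EH x)
    have h4 := h.mat x
    rw [card_singleton] at h3
    omega

theorem nb_bot (v : V) : (nb (⊥ : SimpleGraph V) v).card = 0 := by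
  rw [card_eq_zero, eq_empty_iff_forall_notMem]
  intro w hw
  rw [mem_nb'] at hw
  exact hw

end aux

theorem log3_big (C : ℝ) : ∃ d0 : ℕ, ∀ d : ℕ, d0 ≤ d → C ≤ Real.log d ^ 3 := by
  have h1 : Filter.Tendsto (fun x : ℝ => Real.log x ^ 3) Filter.atTop Filter.atTop :=
    (Filter.tendsto_pow_atTop (by norm_num)).comp Real.tendsto_log_atTop
  obtain ⟨X, hX⟩ := Filter.eventually_atTop.mp (h1.eventually_ge_atTop C)
  obtain ⟨n, hn⟩ := exists_nat_gt X
  exact ⟨n, fun d hd => hX d (le_trans hn.le (by exact_mod_cast hd))⟩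

theorem log8_small (θ : ℝ) (hθ : 0 < θ) : ∃ d0 : ℕ, ∀ d : ℕ, d0 ≤ d →
    2 * Real.log d ^ 8 ≤ θ * d := by
  have h1 : (fun x : ℝ => Real.log x ^ 8) =o[Filter.atTop] (id : ℝ → ℝ) :=
    Real.isLittleO_pow_log_id_atTop
  have h2 := h1.bound (half_pos hθ)
  rw [Filter.eventually_atTop] at h2
  obtain ⟨X, hX⟩ := h2
  obtain ⟨n, hn⟩ := exists_nat_gt X
  refine ⟨n, ?_⟩
  intro d hd
  have h3 := hX d (le_trans hn.le (by exact_mod_cast hd))
  rw [Real.norm_eq_abs, id, Real.norm_eq_abs, abs_of_nonneg (Nat.cast_nonneg d : (0 : ℝ) ≤ d)] at h3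
  have h4 := le_trans (le_abs_self _) h3
  linarith

theorem lin_big (C ε : ℝ) (hε : 0 < ε) : ∃ d0 : ℕ, ∀ d : ℕ, d0 ≤ d → C ≤ ε * d := by
  obtain ⟨n, hn⟩ := exists_nat_gt (C / ε)
  refine ⟨n, ?_⟩
  intro d hd
  have h1 : C / ε < d := lt_of_lt_of_le hn (by exact_mod_cast hd)
  rw [div_lt_iff₀ hε] at h1
  linarith

theorem sum_union_le_of_nonneg {V : Type u} [DecidableEq V] (f : V → ℝ) (hf : ∀ v, 0 ≤ f v)
    (S T : Finset V) : ∑ v ∈ S ∪ T, f v ≤ ∑ v ∈ S, f v + ∑ v ∈ T, f v := by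
  rw [← sum_union_inter]
  have h1 : 0 ≤ ∑ v ∈ S ∩ T, f v := sum_nonneg fun v _ => hf v
  linarith

section facts
variable {V : Type u} [Fintype V] {k : ℕ} {ι κ : Type} {δ' π θ θ' δ1 ε2 c ε x ρs η a0 δ s : ℝ}
  {G EH : SimpleGraph V} {d : ℕ} {Ys : Finset (Finset V)} {UH Gd Hs : Finset V}
  {c0 tu cc : V → Fin k} {t : V → V → Fin k} {E : V → Finset (Fin k)} {K0 : Finset (Fin k)}
  {C : Fin 3 → Finset (Fin k)} {p : V → Fin 3} {a : V → Bool} {Z : Finset V}
  {μ : V → Fin k} {E1 : Finset (Fin k)} {vb : Fin k → Option ι} {sy : Fin k → κ × κ}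
  {u : V → Option ι} {j0 : ι} {sp : V → κ} {hM : V → V → Prop}
  {Fy : Finset V → Finset (Fin k)} {Mt : SimpleGraph V} {pn : Finset V → ℕ}
  {F0 : V → Finset (Fin k)} {t' : V → V → Fin k} {E' : V → Finset (Fin k)}

/-- the colours `t'` on the edges with an end outside the spots -/
theorem mid_t (P : Prep δ' π θ θ' δ1 ε2 c ε x ρs η a0 G EH d Ys UH Gd Hs c0 tu cc t E K0 C p a Z μ
      E1 vb sy u j0 sp hM Fy Mt pn)
    (M : Mid δ π s G EH d Ys UH Gd Hs c0 tu cc t E F0 K0 C p a Z E1 vb j0 t' E')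
    (y w : V) (h : G.Adj y w) (hy : ¬ InS Ys y) : t' y w = t y w := by
  rw [M.out.ts y w, M.tx w y h.symm hy, P.out.ts w y]

theorem mid_cor (P : Prep δ' π θ θ' δ1 ε2 c ε x ρs η a0 G EH d Ys UH Gd Hs c0 tu cc t E K0 C p a Z
      μ E1 vb sy u j0 sp hM Fy Mt pn)
    (M : Mid δ π s G EH d Ys UH Gd Hs c0 tu cc t E F0 K0 C p a Z E1 vb j0 t' E') :
    Cor G EH d Ys UH c0 tu cc t' E' F0 K0 where
  ts := M.out.ts
  te := M.out.te
  tK := M.out.tK
  tc := M.out.tc
  ti := M.out.ti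
  Et := M.out.Et
  EK := M.out.EK
  EU := M.out.EU
  Ed := by
    intro v hv
    have h1 := M.out.Ed v hv
    rw [nb_bot] at h1
    omega
  cU := M.out.cU
  F0d := M.F0d
  F0c := M.F0c

/-- the number of colours at a spot vertex -/
theorem E_upp (P : Prep δ' π θ θ' δ1 ε2 c ε x ρs η a0 G EH d Ys UH Gd Hs c0 tu cc t E K0 C p a Z
      μ E1 vb sy u j0 sp hM Fy Mt pn)
    (M : Mid δ π s G EH d Ys UH Gd Hs c0 tu cc t E F0 K0 C p a Z E1 vb j0 t' E')
    {Y : Finset V} (hY : Y ∈ Ys) {v : V} (hv : v ∈ Y) :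
    ((E' v).card : ℝ) ≤ (d : ℝ) - (nb G v ∩ Y).card + (if v ∈ UH then 1 else 0) := by
  have h1 := (mid_cor P M).Ed v ⟨Y, hY, hv⟩
  have h2 : ((E' v).card : ℝ) + (nb (Gin G EH Ys) v).card = d := by exact_mod_cast h1
  by_cases hU : v ∈ UH
  · rw [if_pos hU]
    have h3 := nb_inter_le G EH P.grp.pre.mat hY hv
    have h4 : ((nb G v ∩ Y).card : ℝ) ≤ (nb (Gin G EH Ys) v).card + 1 := by exact_mod_cast h3
    linarith
  · rw [if_neg hU]
    have h3 := gin_eq G EH P.grp.dis hY hv (fun w hw => hU (P.grp.pre.EU v w hw))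
    rw [h3] at h2
    linarith

theorem E_low (P : Prep δ' π θ θ' δ1 ε2 c ε x ρs η a0 G EH d Ys UH Gd Hs c0 tu cc t E K0 C p a Z
      μ E1 vb sy u j0 sp hM Fy Mt pn)
    (M : Mid δ π s G EH d Ys UH Gd Hs c0 tu cc t E F0 K0 C p a Z E1 vb j0 t' E')
    {Y : Finset V} (hY : Y ∈ Ys) {v : V} (hv : v ∈ Y) :
    (d : ℝ) - (nb G v ∩ Y).card ≤ ((E' v).card : ℝ) := by
  have h1 := (mid_cor P M).Ed v ⟨Y, hY, hv⟩
  have h2 : ((E' v).card : ℝ) + (nb (Gin G EH Ys) v).card = d := by exact_mod_cast h1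
  have h3 := card_le_card (gin_sub G EH P.grp.dis hY hv)
  have h4 : ((nb (Gin G EH Ys) v).card : ℝ) ≤ (nb G v ∩ Y).card := by exact_mod_cast h3
  linarith

theorem od_nonneg (P : Prep δ' π θ θ' δ1 ε2 c ε x ρs η a0 G EH d Ys UH Gd Hs c0 tu cc t E K0 C p a
      Z μ E1 vb sy u j0 sp hM Fy Mt pn) (Y : Finset V) (v : V) :
    0 ≤ (d : ℝ) - (nb G v ∩ Y).card := by
  have h1 : ((nb G v ∩ Y).card : ℝ) ≤ d := by
    exact_mod_cast le_trans (card_le_card inter_subset_left) (P.grp.deg v)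
  linarith

theorem wl_le_wt (P : Prep δ' π θ θ' δ1 ε2 c ε x ρs η a0 G EH d Ys UH Gd Hs c0 tu cc t E K0 C p a
      Z μ E1 vb sy u j0 sp hM Fy Mt pn) (Y : Finset V) : wl G d Hs Y ≤ wt G d Y := by
  rw [wl, wt]
  exact sum_le_sum_of_subset_of_nonneg sdiff_subset fun v _ _ => od_nonneg P Y v

/-- the light slots -/
theorem slL_low (P : Prep δ' π θ θ' δ1 ε2 c ε x ρs η a0 G EH d Ys UH Gd Hs c0 tu cc t E K0 C p a Z
      μ E1 vb sy u j0 sp hM Fy Mt pn)
    (M : Mid δ π s G EH d Ys UH Gd Hs c0 tu cc t E F0 K0 C p a Z E1 vb j0 t' E')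
    {Y : Finset V} (hY : Y ∈ Ys) : wl G d Hs Y ≤ ((slL Y (Lts Ys Hs) E').card : ℝ) := by
  rw [slL, slo_card Y E' (fun v => v ∈ Lts Ys Hs), wl]
  have h1 : Y.filter (fun v => v ∈ Lts Ys Hs) = Y \ Hs := by
    rw [filter_mem_eq_inter]
    exact inter_Lts Hs hY
  rw [h1]
  push_cast
  exact sum_le_sum fun v hv => E_low P M hY (mem_sdiff.mp hv).1

theorem sum_uh {Y : Finset V} (h : (Y ∩ UH).card ≤ 2) (S : Finset V) (hS : S ⊆ Y) :
    ∑ v ∈ S, (if v ∈ UH then (1 : ℝ) else 0) ≤ 2 := by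
  rw [← sum_filter, sum_const, nsmul_eq_mul, mul_one]
  have h1 : S.filter (fun v => v ∈ UH) ⊆ Y ∩ UH := by
    intro v hv
    rw [mem_filter] at hv
    rw [mem_inter]
    exact ⟨hS hv.1, hv.2⟩
  exact_mod_cast le_trans (card_le_card h1) h

theorem shs_sub {Y : Finset V} (h : Y ∈ shs d Ys) : Y ∈ Ys := by
  rw [shs, mem_filter] at h
  exact h.1

theorem sms_sub {Y : Finset V} (h : Y ∈ sms G d Hs Ys) : Y ∈ shs d Ys := by
  rw [sms, mem_filter] at h
  exact h.1

theorem no_guard (P : Prep δ' π θ θ' δ1 ε2 c ε x ρs η a0 G EH d Ys UH Gd Hs c0 tu cc t E K0 C p a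
      Z μ E1 vb sy u j0 sp hM Fy Mt pn) {Y : Finset V} (hY : Y ∈ Ys)
    (hs : Y ∉ sms G d Hs Ys) : ∀ v ∈ Y, v ∉ Gd := by
  intro v hv hg
  obtain ⟨Y', hY', hvY'⟩ := (P.gmem v hg).2.2.1
  apply hs
  have h2 : Y = Y' := by
    by_contra hne
    exact (disjoint_left.mp (P.grp.dis Y hY Y' (shs_sub (sms_sub hY')) hne)) hv hvY'
  rw [h2]
  exact hY'

/-- at most two demands in the spots of small outer degree -/
theorem fy_two (P : Prep δ' π θ θ' δ1 ε2 c ε x ρs η a0 G EH d Ys UH Gd Hs c0 tu cc t E K0 C p a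
      Z μ E1 vb sy u j0 sp hM Fy Mt pn) (hε : ε ≤ 1 / 10) {Y : Finset V}
    (hY : Y ∈ sms G d Hs Ys) (h0 : 0 < Y.card) : (Fy Y).card ≤ 2 := by
  have h1 := P.uh Y hY
  have h2 : ((∑ v ∈ Y \ Hs, ((nb G v).filter (fun y => y ∉ Y ∧ y ∈ UH)).card : ℕ) : ℝ) ≤
      2 * Y.card := by
    have h3 : ∑ v ∈ Y \ Hs, ((nb G v).filter (fun y => y ∉ Y ∧ y ∈ UH)).card ≤
        ∑ v ∈ Y \ Hs, 2 := by
      refine sum_le_sum fun v _ => le_trans (card_le_card ?_) (two_uh P.grp.pre v)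
      intro y hy
      rw [mem_filter] at hy ⊢
      exact ⟨hy.1, hy.2.2⟩
    have h4 : ∑ v ∈ Y \ Hs, 2 ≤ 2 * Y.card := by
      rw [sum_const, smul_eq_mul, mul_comm]
      exact Nat.mul_le_mul_left _ (card_le_card sdiff_subset)
    exact_mod_cast le_trans h3 h4
  by_contra hcon
  push Not at hcon
  have h5 : (3 : ℝ) ≤ (Fy Y).card := by exact_mod_cast hcon
  have h6 : (0 : ℝ) < Y.card := by exact_mod_cast h0
  have h7 : (3 : ℝ) * (9 / 10) * Y.card ≤ (Fy Y).card * (1 - ε) * Y.card := by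
    apply mul_le_mul_of_nonneg_right _ h6.le
    nlinarith
  linarith

theorem fy_big (P : Prep δ' π θ θ' δ1 ε2 c ε x ρs η a0 G EH d Ys UH Gd Hs c0 tu cc t E K0 C p a
      Z μ E1 vb sy u j0 sp hM Fy Mt pn) (hc : 0 ≤ c) {Y : Finset V}
    (hY : Y ∈ shs d Ys) (hs : Y ∉ sms G d Hs Ys) (h0 : 0 < Y.card) :
    ((Fy Y).card : ℝ) ≤ η * d := by
  have h1 := P.cnt Y hY hs
  have h2 := wl_le_wt P Y
  have h3 := P.grp.sum Y (shs_sub hY)
  have h4 : 0 ≤ wl G d Hs Y := sum_nonneg fun v _ => od_nonneg P Y v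
  have h6 : (0 : ℝ) < Y.card := by exact_mod_cast h0
  have h7 : (1 - c) * wl G d Hs Y ≤ wl G d Hs Y := by nlinarith
  have h8 : ((Fy Y).card : ℝ) * Y.card ≤ η * d * Y.card := by linarith
  exact le_of_mul_le_mul_right h8 h6

/-- `Bas` -/
theorem mid_bas {δG θG ηs : ℝ}
    (P : Prep δ' π θ θ' δ1 ε2 c ε x ρs η a0 G EH d Ys UH Gd Hs c0 tu cc t E K0 C p a
      Z μ E1 vb sy u j0 sp hM Fy Mt pn)
    (M : Mid δ π s G EH d Ys UH Gd Hs c0 tu cc t E F0 K0 C p a Z E1 vb j0 t' E')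
    (hc : 0 ≤ c) (hε : ε ≤ 1 / 10) (hθ : θ ≤ 1 / 10) (hη : 0 ≤ η) (hd : 1 ≤ d)
    (hδG : 2 * δ ≤ δG) (hθG : θ * d + 1 ≤ θG * d) (hηs : 4 * η ≤ ηs) (hηd : 4 ≤ ηs * d) :
    Bas δG θG ηs G EH d Ys (shs d Ys) UH (UH ∪ Gd) c0 tu cc t' E' F0 K0 μ
      (fun Y => (Fy Y).card) (fun Y => Fy Y ∪ (Y ∩ UH).image c0) := by
  have hdR : (1 : ℝ) ≤ d := by exact_mod_cast hd
  have hYc : ∀ Y ∈ Ys, (9 / 10 : ℝ) * d ≤ Y.card := by
    intro Y hY
    have h1 := P.grp.low Y hY
    nlinarith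
  have hYu : ∀ Y ∈ Ys, (Y.card : ℝ) ≤ (11 / 10 : ℝ) * d := by
    intro Y hY
    have h1 := P.grp.upp Y hY
    nlinarith
  have hY0 : ∀ Y ∈ Ys, 0 < Y.card := by
    intro Y hY
    have h1 := hYc Y hY
    have h2 : (0 : ℝ) < Y.card := by linarith
    exact_mod_cast h2
  exact
    { K0c := M.out.K0c
      deg := P.grp.deg
      pre := P.grp.pre
      upp := by
        intro Y hY
        have h1 := hYu Y hY
        have h2 : (Y.card : ℝ) ≤ ((2 * d : ℕ) : ℝ) := by
          push_cast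
          linarith
        exact_mod_cast h2
      low := by
        intro Y hY
        have h1 := hYc Y (shs_sub hY)
        have h2 : (d : ℝ) ≤ ((2 * Y.card : ℕ) : ℝ) := by
          push_cast
          linarith
        exact_mod_cast h2
      dis := P.grp.dis
      sh := fun Y hY => shs_sub hY
      UX := fun v hv _ => mem_union_left _ hv
      cor := mid_cor P M
      F0u := fun v _ => M.F0u v
      Ec := by
        rintro v ⟨Y, hY, hv⟩
        have h1 := E_upp P M hY hv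
        have h2 := P.grp.din Y hY v hv
        have h3 : (if v ∈ UH then (1 : ℝ) else 0) ≤ 1 := by split_ifs <;> norm_num
        linarith
      Es := by
        intro Y hY
        rw [slo_card']
        push_cast
        have h1 : ∑ v ∈ Y, ((E' v).card : ℝ) ≤
            ∑ v ∈ Y, (((d : ℝ) - (nb G v ∩ Y).card) + (if v ∈ UH then 1 else 0)) :=
          sum_le_sum fun v hv => E_upp P M hY hv
        rw [sum_add_distrib] at h1
        have h2 := sum_uh (P.grp.uh2 Y hY) Y (Subset.refl _)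
        have h3 := P.grp.sum Y hY
        rw [wt] at h3
        have h4 := hYu Y hY
        have h5 : η * d * Y.card ≤ η * d * ((11 / 10 : ℝ) * d) :=
          mul_le_mul_of_nonneg_left h4 (by positivity)
        have h6 : 4 * η * (d * d) ≤ ηs * (d * d) := mul_le_mul_of_nonneg_right hηs (by positivity)
        have h7 : 4 * (d : ℝ) ≤ ηs * d * d := mul_le_mul_of_nonneg_right hηd (by positivity)
        have h8 : 0 ≤ η * (d * d) := by positivity
        nlinarith
      ld := by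
        intro Y hY b
        have h1 := M.out.ld Y hY b
        have h2 := M.out.ZY Y hY
        have h3 : Y.filter (fun v => b ∈ E' v) ⊆
            Y.filter (fun v => v ∉ Z ∧ b ∈ E' v) ∪ (Y ∩ Z) := by
          intro v hv
          rw [mem_filter] at hv
          rw [mem_union, mem_filter, mem_inter]
          by_cases hZ : v ∈ Z
          · exact Or.inr ⟨hv.1, hZ⟩
          · exact Or.inl ⟨hv.1, hZ, hv.2⟩
        have h4 := le_trans (card_le_card h3) (card_union_le _ _)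
        have h5 : ((Y.filter (fun v => b ∈ E' v)).card : ℝ) ≤
            ((Y.filter (fun v => v ∉ Z ∧ b ∈ E' v)).card : ℝ) + (Y ∩ Z).card := by
          exact_mod_cast h4
        have h6 : 2 * δ * d ≤ δG * d := mul_le_mul_of_nonneg_right hδG (by positivity)
        linarith
      mis := by
        intro y hy
        obtain ⟨h1, h2, h3⟩ := P.mis y hy
        refine ⟨h1, h2, ?_⟩
        intro w hw
        rw [mid_t P M y w hw hy]
        exact h3 w hw
      ndd := by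
        intro Y hY
        have h0 := hY0 Y (shs_sub hY)
        by_cases hs : Y ∈ sms G d Hs Ys
        · have h1 : ((Fy Y).card : ℝ) ≤ 2 := by exact_mod_cast fy_two P hε hs h0
          linarith
        · have h1 := fy_big P hc hY hs h0
          have h2 : η * d ≤ ηs * d := by
            apply mul_le_mul_of_nonneg_right _ (by positivity)
            linarith
          linarith
      Exc := by
        intro Y hY
        have h1 := card_union_le (Fy Y) ((Y ∩ UH).image c0)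
        have h2 : ((Y ∩ UH).image c0).card ≤ (Y ∩ UH).card := card_image_le
        have h3 := P.grp.uh2 Y (shs_sub hY)
        show (Fy Y ∪ (Y ∩ UH).image c0).card ≤ (Fy Y).card + 4
        omega }

/-- `Lab` -/
theorem mid_lab {ε2G : ℝ}
    (P : Prep δ' π θ θ' δ1 ε2 c ε x ρs η a0 G EH d Ys UH Gd Hs c0 tu cc t E K0 C p a
      Z μ E1 vb sy u j0 sp hM Fy Mt pn)
    (M : Mid δ π s G EH d Ys UH Gd Hs c0 tu cc t E F0 K0 C p a Z E1 vb j0 t' E')
    (hε2 : ε2 ≤ ε2G) (hs : s * d + 2 ≤ ε2G * d) :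
    Lab ε2G G EH d Ys (shs d Ys) UH (UH ∪ Gd) (Lts Ys Hs) t' E' μ E1 vb sy u j0 sp hM where
  typ := by
    intro v i _ hvL hvU hvi b hb
    rw [mem_Lts] at hvL
    rcases mem_union.mp (M.EK v hb) with h | h
    · rcases P.typ v i hvL hvU hvi b h with h1 | h1
      · exact Or.inl ⟨h1.1, Or.inl h1.2⟩
      · exact Or.inr h1
    · rw [Ks, mem_filter] at h
      exact Or.inl ⟨h.2.1, Or.inr h.2.2⟩
  edg := by
    intro v y i _ hvL hvU hy hvy hvi
    rw [mem_Lts] at hvL
    rw [M.tx v y hvy hy]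
    exact P.edg v y i hvL hvU hy hvy hvi
  ss := by
    intro Y hY b hb hb1
    have hYs := shs_sub hY
    have h1 : Y.filter (fun v => v ∈ Lts Ys Hs ∧ b ∈ E' v ∧ u v ≠ none ∧ u v ≠ some j0) ⊆
        Y.filter (fun v => b ∈ E' v ∧ b ∉ E v) ∪ (Y ∩ UH) := by
      intro v hv
      rw [mem_filter] at hv
      obtain ⟨hvY, hvL, hvE, hvn, hvj⟩ := hv
      rw [mem_union, mem_filter, mem_inter]
      by_cases hvU : v ∈ UH
      · exact Or.inr ⟨hvY, hvU⟩
      · left
        refine ⟨hvY, hvE, ?_⟩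
        intro hbE
        obtain ⟨i, hi⟩ := Option.ne_none_iff_exists'.mp hvn
        rw [mem_Lts] at hvL
        rcases P.typ v i hvL hvU hi b hbE with h2 | h2
        · rw [hb] at h2
          apply hvj
          rw [hi]
          exact h2.2.symm
        · exact hb1 h2.1
    have h2 := le_trans (card_le_card h1) (card_union_le _ _)
    have h3 := M.ldn Y hYs b
    have h4 : ((Y ∩ UH).card : ℝ) ≤ 2 := by exact_mod_cast P.grp.uh2 Y hYs
    have h5 : ((Y.filter (fun v => v ∈ Lts Ys Hs ∧ b ∈ E' v ∧ u v ≠ none ∧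
        u v ≠ some j0)).card : ℝ) ≤ ((Y.filter (fun v => b ∈ E' v ∧ b ∉ E v)).card : ℝ) +
        (Y ∩ UH).card := by exact_mod_cast h2
    linarith
  hst := by
    intro v y i _ hvL hvU hy hvy hvi h
    rw [mem_Lts] at hvL
    exact P.hst v y i hvL hvU hy hvy hvi h
  den := by
    intro y i s1 s2 hy
    refine le_trans (P.den y i s1 s2 hy) ?_
    exact mul_le_mul_of_nonneg_right hε2 (Nat.cast_nonneg d)

/-- spots of large outer degree -/
theorem mid_big {εG : ℝ}
    (P : Prep δ' π θ θ' δ1 ε2 c ε x ρs η a0 G EH d Ys UH Gd Hs c0 tu cc t E K0 C p a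
      Z μ E1 vb sy u j0 sp hM Fy Mt pn)
    (M : Mid δ π s G EH d Ys UH Gd Hs c0 tu cc t E F0 K0 C p a Z E1 vb j0 t' E')
    (hc : c ≤ 1) (hθ : θ ≤ 1 / 10) (hd : 10 ≤ d) (hε0 : 0 ≤ ε) (hεG : 2 * ε ≤ εG)
    (hl : 8 ≤ εG * Real.log d ^ 3) {Y : Finset V} (hY : Y ∈ shs d Ys)
    (hs : Y ∉ sms G d Hs Ys) :
    Big c εG δ1 G EH d Ys (shs d Ys) UH (UH ∪ Gd) (Lts Ys Hs) E' u j0 sp hM
      (fun Y => (Fy Y).card) Y := by
  have hYs := shs_sub hY
  have hdR : (10 : ℝ) ≤ d := by exact_mod_cast hd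
  have hYc : (9 / 10 : ℝ) * d ≤ Y.card := by
    have h1 := P.grp.low Y hYs
    nlinarith
  have hwl : Real.log d ^ 3 * Y.card ≤ wl G d Hs Y := by
    by_contra hcon
    push Not at hcon
    apply hs
    rw [sms, mem_filter]
    exact ⟨hY, hcon⟩
  have hlow := slL_low P M hYs
  have hwl0 : 0 ≤ wl G d Hs Y := sum_nonneg fun v _ => od_nonneg P Y v
  have hεG0 : 0 ≤ εG := by linarith
  -- `ε wl ≤ ε |slL|`
  have hεw : ε * wl G d Hs Y ≤ εG * ((slL Y (Lts Ys Hs) E').card : ℝ) := by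
    calc ε * wl G d Hs Y ≤ εG * wl G d Hs Y := mul_le_mul_of_nonneg_right (by linarith) hwl0
      _ ≤ _ := mul_le_mul_of_nonneg_left hlow hεG0
  have hI : Y ∩ Lts Ys Hs = Y \ Hs := inter_Lts Hs hYs
  exact
    { cnt := by
        refine le_trans (P.cnt Y hY hs) ?_
        exact mul_le_mul_of_nonneg_left hlow (by linarith)
      spc := by
        rw [slL, filter_filter]
        rw [slo_card Y E' (fun v => v ∈ Lts Ys Hs ∧
          (u v = none ∨ u v = some j0 ∨ v ∈ UH ∪ Gd))]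
        push_cast
        have h1 : ∑ v ∈ Y.filter (fun v => v ∈ Lts Ys Hs ∧
            (u v = none ∨ u v = some j0 ∨ v ∈ UH ∪ Gd)), ((E' v).card : ℝ) ≤
            ∑ v ∈ (Y \ Hs).filter (fun v => u v = none ∨ u v = some j0),
              ((d : ℝ) - (nb G v ∩ Y).card) + ∑ v ∈ Y ∩ UH, ((E' v).card : ℝ) := by
          have h2 : Y.filter (fun v => v ∈ Lts Ys Hs ∧
              (u v = none ∨ u v = some j0 ∨ v ∈ UH ∪ Gd)) ⊆
              ((Y \ Hs).filter (fun v => (u v = none ∨ u v = some j0) ∧ v ∉ UH)) ∪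
                (Y ∩ UH) := by
            intro v hv
            rw [mem_filter, mem_Lts] at hv
            obtain ⟨hvY, ⟨_, hvH⟩, hv3⟩ := hv
            rw [mem_union, mem_filter, mem_sdiff, mem_inter]
            by_cases hvU : v ∈ UH
            · exact Or.inr ⟨hvY, hvU⟩
            · left
              refine ⟨⟨hvY, hvH⟩, ?_, hvU⟩
              rcases hv3 with h | h | h
              · exact Or.inl h
              · exact Or.inr h
              · rcases mem_union.mp h with h | h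
                · exact absurd h hvU
                · exact absurd h (no_guard P hYs hs v hvY)
          refine le_trans (sum_le_sum_of_subset_of_nonneg h2 fun _ _ _ => Nat.cast_nonneg _) ?_
          refine le_trans (sum_union_le_of_nonneg (fun v => ((E' v).card : ℝ))
            (fun _ => Nat.cast_nonneg _) _ _) ?_
          refine add_le_add ?_ le_rfl
          calc ∑ v ∈ (Y \ Hs).filter (fun v => (u v = none ∨ u v = some j0) ∧ v ∉ UH),
                ((E' v).card : ℝ)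
              ≤ ∑ v ∈ (Y \ Hs).filter (fun v => (u v = none ∨ u v = some j0) ∧ v ∉ UH),
                ((d : ℝ) - (nb G v ∩ Y).card) := by
                refine sum_le_sum fun v hv => ?_
                rw [mem_filter, mem_sdiff] at hv
                have h3 := E_upp P M hYs hv.1.1
                rw [if_neg hv.2.2] at h3
                linarith
            _ ≤ _ := by
                apply sum_le_sum_of_subset_of_nonneg
                · intro v hv
                  rw [mem_filter] at hv ⊢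
                  exact ⟨hv.1, hv.2.1⟩
                · intro v _ _
                  exact od_nonneg P Y v
        have h4 : ∑ v ∈ Y ∩ UH, ((E' v).card : ℝ) ≤ 2 * d := by
          have h5 : ∀ v ∈ Y ∩ UH, ((E' v).card : ℝ) ≤ d := by
            intro v hv
            have h6 := (mid_cor P M).Ed v ⟨Y, hYs, (mem_inter.mp hv).1⟩
            have h7 : (E' v).card ≤ d := by omega
            exact_mod_cast h7
          have h8 : ((Y ∩ UH).card : ℝ) ≤ 2 := by exact_mod_cast P.grp.uh2 Y hYs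
          calc ∑ v ∈ Y ∩ UH, ((E' v).card : ℝ) ≤ ∑ v ∈ Y ∩ UH, (d : ℝ) := sum_le_sum h5
            _ = (Y ∩ UH).card * d := by rw [sum_const, nsmul_eq_mul]
            _ ≤ 2 * d := mul_le_mul_of_nonneg_right h8 (Nat.cast_nonneg d)
        have h9 := P.spc Y hY hs
        have h10 : 2 * (d : ℝ) ≤ εG / 2 * wl G d Hs Y := by
          have h11 : Real.log d ^ 3 * (9 / 10 * d) ≤ wl G d Hs Y := by
            refine le_trans ?_ hwl
            apply mul_le_mul_of_nonneg_left hYc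
            exact pow_nonneg (Real.log_natCast_nonneg d) 3
          have h12 : εG / 2 * (Real.log d ^ 3 * (9 / 10 * d)) ≤ εG / 2 * wl G d Hs Y :=
            mul_le_mul_of_nonneg_left h11 (by linarith)
          have h13 : (8 : ℝ) * d ≤ εG * Real.log d ^ 3 * d :=
            mul_le_mul_of_nonneg_right hl (by linarith)
          nlinarith
        have h14 : ε * wl G d Hs Y ≤ εG / 2 * wl G d Hs Y :=
          mul_le_mul_of_nonneg_right (by linarith) hwl0
        have h15 : εG * wl G d Hs Y ≤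
            εG * ∑ v ∈ Y.filter (fun v => v ∈ Lts Ys Hs), ((E' v).card : ℝ) := by
          apply mul_le_mul_of_nonneg_left _ hεG0
          rw [slL, slo_card Y E' (fun v => v ∈ Lts Ys Hs)] at hlow
          push_cast at hlow
          exact hlow
        rw [slo_card Y E' (fun v => v ∈ Lts Ys Hs)]
        push_cast
        linarith
      gss := by
        rw [hI]
        refine le_trans ?_ (le_trans (P.gss Y hY hs) hεw)
        have h1 : ∑ v ∈ Y \ Hs, ((nb (Gss G EH Ys) v).filter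
            (fun x => x ∈ UH ∪ Gd ∧ x ∉ UH)).card ≤
            ∑ v ∈ Y \ Hs, (nb (Gss G EH Ys) v ∩ Gd).card := by
          refine sum_le_sum fun v _ => card_le_card ?_
          intro w hw
          rw [mem_filter] at hw
          rw [mem_inter]
          refine ⟨hw.1, ?_⟩
          rcases mem_union.mp hw.2.1 with h | h
          · exact absurd h hw.2.2
          · exact h
        exact_mod_cast h1
      spl := by
        rw [hI]
        exact le_trans (P.spl Y hY hs) hεw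
      hMl := by
        rw [hI]
        refine le_trans (P.hMl Y hY hs) ?_
        linarith }

/-- spots of small outer degree -/
theorem mid_sma {εG : ℝ}
    (P : Prep δ' π θ θ' δ1 ε2 c ε x ρs η a0 G EH d Ys UH Gd Hs c0 tu cc t E K0 C p a
      Z μ E1 vb sy u j0 sp hM Fy Mt pn)
    (hε : ε ≤ 1 / 10) (hθ : θ ≤ 1 / 10) (hd : 10 ≤ d) (hεG : 2 * ε ≤ εG) (hε0 : 0 ≤ ε)
    (hl : 2 + 2 * Real.log d ^ 8 ≤ εG / 4 * d) {Y : Finset V} (hY : Y ∈ sms G d Hs Ys) :
    Sma εG G UH (UH ∪ Gd) (Lts Ys Hs) u j0 (fun Y => (Fy Y).card) Y := by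
  have hYs := shs_sub (sms_sub hY)
  have hdR : (10 : ℝ) ≤ d := by exact_mod_cast hd
  have hYc : (9 / 10 : ℝ) * d ≤ Y.card := by
    have h1 := P.grp.low Y hYs
    nlinarith
  have hY0 : 0 < Y.card := by
    have h2 : (0 : ℝ) < Y.card := by linarith
    exact_mod_cast h2
  have hI : Y ∩ Lts Ys Hs = Y \ Hs := inter_Lts Hs hYs
  exact
    { two := fy_two P hε hY hY0
      uh := by
        rw [hI]
        refine le_trans ?_ (P.uh Y hY)
        have h1 : (1 - εG) ≤ 1 - ε := by linarith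
        have h2 : ((Fy Y).card : ℝ) * (1 - εG) ≤ (Fy Y).card * (1 - ε) :=
          mul_le_mul_of_nonneg_left h1 (Nat.cast_nonneg _)
        exact mul_le_mul_of_nonneg_right h2 (Nat.cast_nonneg _)
      spc := by
        rw [hI]
        have h1 : (Y \ Hs).filter (fun v => u v = none ∨ u v = some j0 ∨ v ∈ UH ∪ Gd) ⊆
            (Y \ Hs).filter (fun v => u v = none ∨ u v = some j0) ∪ ((Y ∩ UH) ∪ (Y ∩ Gd)) := by
          intro v hv
          rw [mem_filter, mem_sdiff, mem_union] at hv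
          rw [mem_union, mem_union, mem_filter, mem_inter, mem_inter, mem_sdiff]
          tauto
        have h2 := le_trans (card_le_card h1) (card_union_le _ _)
        have h3 := card_union_le (Y ∩ UH) (Y ∩ Gd)
        have h4 : (((Y \ Hs).filter (fun v => u v = none ∨ u v = some j0 ∨
            v ∈ UH ∪ Gd)).card : ℝ) ≤ (((Y \ Hs).filter (fun v => u v = none ∨
              u v = some j0)).card : ℝ) + (((Y ∩ UH).card : ℝ) + (Y ∩ Gd).card) := by
          exact_mod_cast le_trans h2 (Nat.add_le_add_left h3 _)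
        have h5 := P.spS Y hY
        have h6 : ((Y ∩ UH).card : ℝ) ≤ 2 := by exact_mod_cast P.grp.uh2 Y hYs
        have h7 := P.gupp Y hY
        have h8 : εG / 4 * d ≤ εG / 2 * Y.card := by nlinarith
        have h9 : ε * Y.card ≤ εG / 2 * Y.card :=
          mul_le_mul_of_nonneg_right (by linarith) (Nat.cast_nonneg _)
        linarith }

end facts

theorem stmt_SITX (hG : Pool.Agent.Work.MP_db9399_sv.Stmt_GEO.{u}) : Stmt_SITX.{u} := by
  obtain ⟨z, hz, hG⟩ := hG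
  refine ⟨z, hz, ?_⟩
  intro δ1 hδ1
  obtain ⟨ρ, ε2, hρ, hε2, hG⟩ := hG δ1 hδ1
  refine ⟨ρ, ε2, hρ, hε2, ?_⟩
  intro δs θs hδs hθs
  obtain ⟨θG, hθG0, hθG1, hθG2⟩ : ∃ θG : ℝ, 0 < θG ∧ θG ≤ θs ∧ θG ≤ 1 / 100 :=
    ⟨min θs (1 / 100), lt_min hθs (by norm_num), min_le_left _ _, min_le_right _ _⟩
  refine ⟨θG / 2, by positivity, ?_⟩
  intro c hc hc1
  obtain ⟨εG, d1, hεG, hG⟩ := hG c hc hc1
  obtain ⟨δG, hδG0, hδG1, hδG2⟩ : ∃ δG : ℝ, 0 < δG ∧ δG ≤ δs ∧ δG ≤ εG :=
    ⟨min δs εG, lt_min hδs hεG, min_le_left _ _, min_le_right _ _⟩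
  obtain ⟨ε, hε0, hε1, hε3⟩ : ∃ ε : ℝ, 0 < ε ∧ 2 * ε ≤ εG ∧ ε ≤ 1 / 10 :=
    ⟨min (εG / 2) (1 / 10), lt_min (by positivity) (by norm_num), by
      have := min_le_left (εG / 2) (1 / 10)
      linarith, min_le_right _ _⟩
  refine ⟨ε, δG / 2, ε2 / 2, hε0, by positivity, by positivity, ?_⟩
  intro ηs hηs
  obtain ⟨d2, hd2⟩ := lin_big 1 (θG / 2) (by positivity)
  obtain ⟨d3, hd3⟩ := lin_big 4 ηs hηs
  obtain ⟨d4, hd4⟩ := lin_big 2 (ε2 / 2) (by positivity)
  obtain ⟨d5, hd5⟩ := log3_big (8 / εG)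
  obtain ⟨d6, hd6⟩ := log8_small (εG / 8) (by positivity)
  obtain ⟨d7, hd7⟩ := lin_big 2 (εG / 8) (by positivity)
  refine ⟨ηs / 4, d1 + d2 + d3 + d4 + d5 + d6 + d7 + 10, by positivity, ?_⟩
  intro V _ k ι κ δ' π θ' x ρs a0 G EH d Ys UH Gd Hs c0 tu cc t E K0 C p a Z μ E1 vb sy u j0 sp hM
    Fy Mt pn F0 t' E' hd P M
  have hdR : (10 : ℝ) ≤ d := by
    have h1 : 10 ≤ d := by omega
    exact_mod_cast h1
  have e2 := hd2 d (by omega)
  have e3 := hd3 d (by omega)
  have e4 := hd4 d (by omega)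
  have e5 := hd5 d (by omega)
  have e6 := hd6 d (by omega)
  have e7 := hd7 d (by omega)
  rw [div_le_iff₀ hεG] at e5
  have hB := mid_bas (δG := δG) (θG := θG) (ηs := ηs) P M hc.le hε3 (by linarith)
    (by positivity) (by omega) (by linarith) (by linarith) (by linarith) e3
  have hL := mid_lab (ε2G := ε2) P M le_rfl (by linarith)
  obtain ⟨nL, nD, Pm, Hb, hS, hn⟩ := hG δG θG ηs hδG0 hδG2 hθG0 hθG2 hηs G EH d Ys (shs d Ys) UH
    (UH ∪ Gd) (Lts Ys Hs) c0 tu cc t' E' F0 K0 μ (fun Y => (Fy Y).card)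
    (fun Y => Fy Y ∪ (Y ∩ UH).image c0) E1 vb sy u j0 sp hM (by omega) hB hL (by
      intro Y hY _
      by_cases hs : Y ∈ sms G d Hs Ys
      · exact Or.inr (mid_sma P hε3 (by linarith) (by omega) hε1 hε0.le (by linarith) hs)
      · exact Or.inl (mid_big P M hc1 (by linarith) (by omega) hε0.le hε1 (by linarith) hY hs))
  refine ⟨nL, nD, Pm, Hb, ?_, hn⟩
  have hθ2 : θG * d ≤ θs * d := mul_le_mul_of_nonneg_right hθG1 (by linarith)
  have hδ2 : δG * d ≤ δs * d := mul_le_mul_of_nonneg_right hδG1 (by linarith)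
  exact
    { K0c := hS.K0c
      deg := hS.deg
      EG := hS.EG
      upp := hS.upp
      low := hS.low
      dis := hS.dis
      sh := hS.sh
      UX := hS.UX
      cor := hS.cor
      Ec := fun v hv => le_trans (hS.Ec v hv) hθ2
      Es := hS.Es
      ld := fun Y hY b => le_trans (hS.ld Y hY b) hδ2
      mis := hS.mis
      pm := hS.pm
      ndd := hS.ndd
      Exc := hS.Exc
      us := hS.us
      Hc := hS.Hc
      Hd := hS.Hd
      Hy := hS.Hy }

end Pool.Agent.Work.MP_db9399_sx.helper79
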